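import Pool.Agent.H167R3.HW.Local
import Pool.Agent.H167R3.HW.Defs

set_option autoImplicit false
set_option linter.unusedSectionVars false

/-! A Hamiltonian and a non-Hamiltonian graph which every circuit with few wirings up to
translations of quadruples of vertices treats in the same way, on average over the translations. -/

namespace Pool.Agent.H502R3.FP

open Finset Matrix
open Pool.Agent.H545R2 (SegV exists_joining)
open Pool.Agent.H545R2.K (Nd Ed BI V4 Sgm bd bd_add bd_zero iotaR Bad bp bp_apply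
  bp_notMem bp_add bp_zero actV GG GG_act card_BI card_Sgm ham_of_hom backward
  forward)
open Pool.Agent.H429R4.Sem (Circuit)
open Pool.Agent.H429R4.GC (value view adj IsRight isRight_comap act_comp pre pre_pre
  pre_view pre_id wirings numWirings relabelings)
open Pool.Agent.H167R3.HW

theorem comap_isoL {V W : Type} (G : SimpleGraph W) (Θ : V ≃ W) : Nonempty (G.comap Θ ≃g G) :=
  ⟨⟨Θ, Iff.rfl⟩⟩

/-- **Local pair.** -/
theorem local_pair (V : Type) [Fintype V] [DecidableEq V] (r m : ℕ) (hm0 : 0 < m)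
    (hmr : 2000000 * m ≤ r) (hVr : 4 * r ≤ Fintype.card V) :
    ∃ H H' : SimpleGraph V, H.IsHamiltonian ∧ ¬ H'.IsHamiltonian ∧
      ∀ (blk : Fin r × V4 ↪ V) (D L : Type) (C : Circuit (V × V) D L),
        numWirings adj C (translations blk) < 2 ^ m →
        ∃ G G' : SimpleGraph V, Nonempty (G ≃g H) ∧ Nonempty (G' ≃g H') ∧ ∀ d : D,
          Nat.card {κ : Fin r → V4 // C.output (adj (G.comap (bp blk κ))) = d} =
            Nat.card {κ : Fin r → V4 // C.output (adj (G'.comap (bp blk κ))) = d} := by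
  classical
  obtain ⟨M, hMdef⟩ : ∃ M, M = 240 * m := ⟨_, rfl⟩
  have hM : 0 < M := by omega
  have hr' : 8200 * M ≤ r := by omega
  have hr : 7980 * M ≤ r := by omega
  obtain ⟨π, hπ⟩ := exists_joining M hM
  obtain ⟨ei⟩ : Nonempty (BI M ↪ Fin r) := by
    apply Function.Embedding.nonempty_of_card_le
    rw [card_BI, Fintype.card_fin]
    exact hr
  obtain ⟨z, hz⟩ : ∃ z, Fintype.card V = (10850 * M + 1) * 3 + z :=
    ⟨Fintype.card V - (10850 * M + 1) * 3, by omega⟩
  have hcard : Fintype.card V = Fintype.card (SegV (Sgm M) z) := by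
    have h3 : Fintype.card (Option Bool) = 3 := rfl
    unfold SegV
    rw [Fintype.card_sum, Fintype.card_prod, card_Sgm, h3, Fintype.card_fin]
    exact hz
  obtain ⟨Θ₀⟩ : Nonempty (V ≃ SegV (Sgm M) z) := Fintype.card_eq.1 hcard
  obtain ⟨v0, hv0⟩ := exists_node π hπ hM
  refine ⟨gg π Θ₀ 0, gg π Θ₀ (Pi.single v0 1), ham_zero π hM Θ₀, not_ham_single π Θ₀ v0, ?_⟩
  intro blk D L C hcon
  have hfin : (wirings adj C (translations blk)).Finite := wirings_finite' _ C
  obtain ⟨R, hR⟩ := exists_R blk π ei m hMdef (wirings adj C (translations blk)) hfin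
    (by
      rintro ξ ⟨g, f, ⟨κ, rfl⟩, rfl⟩ κ'
      refine ⟨g, cm (bp blk κ) ∘ cm (bp blk κ'), ⟨κ' + κ, ?_⟩, ?_⟩
      · have h := act_comp (isRight_comap (W := V)) (bp blk κ) (bp blk κ')
        rw [← bp_add] at h
        exact h.symm
      · rw [pre_view]) hcon
  obtain ⟨Θ, hΘ⟩ := exists_placement π blk ei R hcard
  refine ⟨gg π Θ 0, gg π Θ (Pi.single v0 1), ?_, ?_, ?_⟩
  · obtain ⟨f0⟩ := comap_isoL (GG π (0 : Nd M → ZMod 2) z) Θ
    obtain ⟨f1⟩ := comap_isoL (GG π (0 : Nd M → ZMod 2) z) Θ₀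
    exact ⟨f0.trans f1.symm⟩
  · obtain ⟨f0⟩ := comap_isoL (GG π (Pi.single v0 1) z) Θ
    obtain ⟨f1⟩ := comap_isoL (GG π (Pi.single v0 1) z) Θ₀
    exact ⟨f0.trans f1.symm⟩
  intro d
  have hsh := fun κ : Fin r → V4 =>
    exists_shift_ham blk π ei R hπ hM Θ hΘ C (bp blk κ) (by
      intro g χ hχ
      exact hR (view adj C g (cm (bp blk κ))) ⟨g, _, ⟨κ, rfl⟩, rfl⟩ χ hχ) v0 hv0
  choose u₀ hu₀ using hsh
  let f : SimpleGraph V → (Fin r → V4) → ℕ := fun G κ =>
    if C.output (adj (cm (bp blk κ) G)) = d then 1 else 0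
  have hcardf : ∀ G : SimpleGraph V,
      Nat.card {κ : Fin r → V4 // C.output (adj (G.comap (bp blk κ))) = d} = ∑ κ, f G κ := by
    intro G
    rw [Nat.card_eq_fintype_card, Fintype.card_subtype, card_filter]
  let ι : (Ed M → ZMod 2) → (Fin r → V4) := fun u => iotaR π ei R u
  have hav : ∀ G, Fintype.card (Ed M → ZMod 2) * ∑ κ, f G κ =
      ∑ κ, ∑ u, f G (ι u + κ) := by
    intro G
    rw [sum_comm, ← smul_eq_mul, ← card_univ, ← sum_const]
    refine sum_congr rfl fun u _ => ?_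
    exact (Equiv.sum_comp (Equiv.addLeft (ι u)) (f G)).symm
  have hmulP : ∀ G u κ, f G (ι u + κ) =
      if C.output (adj (cm (bp blk κ) (cm (bp blk (ι u)) G))) = d then 1 else 0 := by
    intro G u κ
    simp only [f]
    have h3 := (isRight_comap (W := V)).mul (bp blk (ι u)) (bp blk κ) G
    have h4 : cm (bp blk (ι u) * bp blk κ) G = cm (bp blk κ) (cm (bp blk (ι u)) G) := h3
    rw [bp_add, h4]
  have hfe : ∀ κ u, f (gg π Θ 0) (ι (u + u₀ κ) + κ) =
      f (gg π Θ (Pi.single v0 1)) (ι u + κ) := by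
    intro κ u
    rw [hmulP, hmulP, hu₀ κ u]
  have hmain : ∑ κ, ∑ u, f (gg π Θ 0) (ι u + κ) =
      ∑ κ, ∑ u, f (gg π Θ (Pi.single v0 1)) (ι u + κ) := by
    refine sum_congr rfl fun κ _ => ?_
    rw [← Equiv.sum_comp (Equiv.addRight (u₀ κ)) fun u => f (gg π Θ 0) (ι u + κ)]
    exact sum_congr rfl fun u _ => hfe κ u
  rw [← hav, ← hav] at hmain
  rw [hcardf, hcardf]
  exact Nat.eq_of_mul_eq_mul_left Fintype.card_pos hmain

end Pool.Agent.H502R3.FP
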